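import Pool.Agent.E8helper49.PC.Stm

/-! # Project PC: DEG -/

set_option autoImplicit false

namespace Pool.Agent.E8helper15.PC

open NumberField Pool.Agent.E8helper49.PC

theorem t_DEG : S_GRP → S_DEG := by
  intro hgrp M Ω _ _ hM hClo F _ _ ⟨ι⟩ hx
  obtain ⟨hGal, hG⟩ := hgrp M Ω (fun l hl => (hM l hl).1.pos) hClo
  obtain ⟨ω, r, hω, -, -⟩ := hClo
  obtain ⟨hout, hin, -⟩ := hG ω hω
  -- the image of an automorphism
  have himg : ∀ σ : Ω ≃ₐ[ℚ] Ω, σ ω ≠ ω → σ ω = -1 - ω := by
    intro σ hσ
    have h1 : (σ ω) ^ 2 + σ ω + 1 = 0 := by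
      have := congrArg σ hω
      rwa [map_add, map_add, map_pow, map_one, map_zero] at this
    have h2 : (σ ω - ω) * (σ ω + 1 + ω) = 0 := by linear_combination h1 - hω
    rcases mul_eq_zero.1 h2 with h3 | h3
    · exact absurd (sub_eq_zero.1 h3) hσ
    · linear_combination h3
  have hmul : ∀ σ τ : Ω ≃ₐ[ℚ] Ω, σ ω ≠ ω → τ ω ≠ ω → (σ * τ) ω = ω := by
    intro σ τ hσ hτ
    rw [AlgEquiv.mul_apply, himg τ hτ, map_sub, map_neg, map_one, himg σ hσ]
    ring
  -- `4` does not divide the order of the group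
  have h4 : ¬ 4 ∣ Nat.card (Ω ≃ₐ[ℚ] Ω) := by
    intro h4
    have : Fact (Nat.Prime 2) := ⟨Nat.prime_two⟩
    obtain ⟨K, hK⟩ := Sylow.exists_subgroup_card_pow_prime (G := Ω ≃ₐ[ℚ] Ω) 2 (n := 2)
      (by rw [show (2 : ℕ) ^ 2 = 4 from rfl]; exact h4)
    have hK4 : ∀ g ∈ K, g ^ 4 = 1 := by
      intro g hg
      have h5 : (⟨g, hg⟩ : K) ^ Nat.card K = 1 := pow_card_eq_one'
      rw [hK] at h5
      have := congrArg Subtype.val h5
      simpa using this
    have hone : ∀ g ∈ K, g ω = ω → g = 1 := by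
      intro g hg hgω
      have e3 : g ^ 3 = 1 := by
        have := hin g hgω
        rw [pow_succ, pow_two]
        exact this
      have e4 := hK4 g hg
      rwa [pow_succ, e3, one_mul] at e4
    -- two elements different from `1` are equal
    have hsub : ∀ g ∈ K, ∀ k ∈ K, g ≠ 1 → k ≠ 1 → g = k := by
      intro g hg k hk hg1 hk1
      have hgo : g ω ≠ ω := fun h => hg1 (hone g hg h)
      have hko : k ω ≠ ω := fun h => hk1 (hone k hk h)
      have h6 := hone (g * k) (K.mul_mem hg hk) (hmul g k hgo hko)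
      have h7 := hout k hko
      calc g = g * (k * k) := by rw [h7, mul_one]
        _ = g * k * k := by rw [mul_assoc]
        _ = k := by rw [h6, one_mul]
    have hcard : Nat.card K ≤ 2 := by
      by_contra hcon
      push Not at hcon
      have hfin : Finite K := Nat.finite_of_card_ne_zero (by omega)
      have := Fintype.ofFinite K
      rw [Nat.card_eq_fintype_card] at hcon
      obtain ⟨a, b, c, hab, hac, hbc⟩ := Fintype.two_lt_card_iff.1 hcon
      have key : ∀ u v : K, u ≠ 1 → v ≠ 1 → u = v := fun u v hu hv =>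
        Subtype.ext (hsub u u.2 v v.2 (fun h => hu (Subtype.ext h)) fun h => hv (Subtype.ext h))
      by_cases ha : a = 1
      · exact hbc (key b c (fun h => hab (ha.trans h.symm)) fun h => hac (ha.trans h.symm))
      · by_cases hb : b = 1
        · exact hac (key a c ha fun h => hbc (hb.trans h.symm))
        · exact hab (key a b ha hb)
    rw [hK] at hcard
    norm_num at hcard
  -- the image of `F`
  let ι' : F →ₐ[ℚ] Ω := ι.toRatAlgHom
  let F' : IntermediateField ℚ Ω := ι'.fieldRange
  have hFF : Module.finrank ℚ F = Module.finrank ℚ F' :=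
    (AlgEquiv.ofInjectiveField ι').toLinearEquiv.finrank_eq
  have hωF : ω ∉ F' := by
    rintro ⟨x, hxω⟩
    apply hx
    refine ⟨x, ?_⟩
    apply ι'.injective
    rw [map_add, map_add, map_pow, map_one, map_zero]
    have hxω' : ι'.toRingHom x = ω := hxω
    rw [hxω', hω]
  obtain ⟨g, hg, hgω⟩ : ∃ g ∈ F'.fixingSubgroup, g ω ≠ ω := by
    by_contra hcon
    push Not at hcon
    apply hωF
    rw [← IsGalois.fixedField_fixingSubgroup F', IntermediateField.mem_fixedField_iff]
    intro g hg
    exact hcon g hg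
  have h2H : 2 ∣ Nat.card F'.fixingSubgroup := by
    have h5 : orderOf (⟨g, hg⟩ : F'.fixingSubgroup) = 2 := by
      have : Fact (Nat.Prime 2) := ⟨Nat.prime_two⟩
      refine orderOf_eq_prime ?_ ?_
      · apply Subtype.ext
        rw [pow_two]
        exact hout g hgω
      · intro h
        have := congrArg Subtype.val h
        apply hgω
        have h6 : g = 1 := this
        rw [h6]
        rfl
    rw [← h5]
    exact orderOf_dvd_natCard _
  have hcardH : Nat.card F'.fixingSubgroup = Module.finrank F' Ω :=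
    IsGalois.card_fixingSubgroup_eq_finrank F'
  have hcardG : Nat.card (Ω ≃ₐ[ℚ] Ω) = Module.finrank ℚ Ω := IsGalois.card_aut_eq_finrank ℚ Ω
  have htower : Module.finrank ℚ F' * Module.finrank F' Ω = Module.finrank ℚ Ω :=
    Module.finrank_mul_finrank ℚ F' Ω
  rw [hFF]
  by_contra hodd
  rw [Nat.not_odd_iff_even] at hodd
  apply h4
  rw [hcardG, ← htower, ← hcardH]
  have : 2 * 2 ∣ Module.finrank ℚ F' * Nat.card F'.fixingSubgroup :=
    mul_dvd_mul hodd.two_dvd h2H
  simpa using this

end Pool.Agent.E8helper15.PC
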