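import Pool.Agent.E8helper49.PC.Stm

/-! # Project PC: INF2 -/

set_option autoImplicit false

namespace Pool.Agent.E8helper15.PC

open NumberField Pool.Agent.E8helper49.PC

theorem t_INF2 : S_DEG → S_INF1 → S_INF := by
  classical
  intro hdeg hinf1 M Ω _ _ hM hClo F _ _ hF
  have h1 := InfinitePlace.card_add_two_mul_card_eq_rank F
  have h2 : nA F = InfinitePlace.nrRealPlaces F + InfinitePlace.nrComplexPlaces F := by
    unfold nA
    rw [Nat.card_eq_fintype_card]
    exact InfinitePlace.card_eq_nrRealPlaces_add_nrComplexPlaces F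
  constructor
  · rintro ⟨x, hx⟩
    have h3 : InfinitePlace.nrRealPlaces F = 0 := by
      rw [← InfinitePlace.card_real_embeddings F, Fintype.card_eq_zero_iff]
      refine ⟨fun φ => ?_⟩
      have h4 := congrArg φ.2.embedding hx
      rw [map_add, map_add, map_pow, map_one, map_zero] at h4
      nlinarith [sq_nonneg (2 * φ.2.embedding x + 1)]
    omega
  · intro hx
    have h3 := hdeg M Ω hM hClo F hF hx
    have h4 := hinf1 M Ω hM hClo F hF
    have h5 : InfinitePlace.nrRealPlaces F ≤ 1 := by
      rw [← InfinitePlace.card_real_embeddings F, Fintype.card_le_one_iff]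
      intro φ ψ
      apply Subtype.ext
      ext z
      have h6 : φ.2.embedding = ψ.2.embedding := Subsingleton.elim _ _
      rw [← ComplexEmbedding.IsReal.coe_embedding_apply φ.2 z,
        ← ComplexEmbedding.IsReal.coe_embedding_apply ψ.2 z, h6]
    rcases h3 with ⟨k, hk⟩
    omega

end Pool.Agent.E8helper15.PC
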